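import Pool.Agent.K4H9.NJ.Tor
import Pool.Agent.K4H9.AL.NC

/-!
# Null-homologous knots in the thickened torus with unit Jones polynomial

Diagrams: `Pool.Agent.H891R2.Jones.Diagram` (starting library): `Crossing P`, `Diagram P` (oriented
diagrams with marked points `P`; the arcs only say which marked points are joined, so these are diagrams
of links in thickened surfaces, that is, virtual link diagrams), `Diagram.IsClosed` (the pieces fit
together to closed oriented curves), `Diagram.fPoly` (the normalised Kauffman bracket
`(-A^{-3})^{w(D)} ⟨D⟩`, a state sum in which all loops count equally; the Jones polynomial is `1` if and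
only if `fPoly = 1`).

`Pool.Agent.K4H9.NJ.Stm`: `Move`, `Equivalent` (stable equivalence: the equivalence relation generated by
renaming the marked points, changing the order of the lists and the description of a crossing, contracting
arcs, and the Reidemeister moves R1, R2, R3 for all signs and directions), `unknot`, `IsKnot` (closed, one
component), `Adj`, `regions` (the regions of the surface of the diagram, as classes of sides of strands),
`OnTorus` (the surface of the diagram has genus at most one), `NullHomologous` (the regions have an
Alexander numbering).

The knots: `W k n` (`Pool.Agent.K4H9.NJ.Defs`), `k, n ≥ 1`, has `4 k + 2 n` crossings and `2` virtual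
crossings.  It is the closure of `s_0^{-2n} v_1 s_1^{2k} v_1 s_1^{-2k}` in a box with three strands directed
upwards, downwards and upwards, outside of which the lower ends of the second and the third strand, the
upper ends of the first two strands, and the upper end of the third with the lower end of the first strand
are joined.  The bracket does not distinguish `v s^{2k} v` from `s^{2k}`, so it is the one of the unknot.
For the numberings, `v s^{2k} v` is as good as `s^{2k}` since the two strands are antiparallel and the
number of crossings is even.  For the Fox colourings, `v s^{2k} v` is the same as `s^{-2k}`, so that `W k n`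
has the Fox colourings of the two-bridge knot with `4 k + 2 n` crossings and determinant `8 k n - 1`; a
colouring argument with values in arbitrary commutative rings shows that `8 k n - 1` is an invariant of
the stable equivalence class of `W k n`.  Here `D n = W 1 (n + 1)`.

`Pool.Agent.K4H9.AL.Cls`: `OnSphere`, `Classical` (stably equivalent to a knot diagram on the sphere).  The
knots are not classical: a knot diagram on the sphere which has a nonconstant Alexander colouring with the
parameter `t` in a field has one with the parameter `t⁻¹` (`Pool.Agent.K4H9.AL.Sym`), but the Alexander
colourings of `W k n` are those of a cyclic module of order `1 - k n (1 - t⁻¹) (2 - t - t⁻¹)`, which is not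
symmetric (`Pool.Agent.K4H9.AL.NC`).
-/

set_option autoImplicit false

namespace Pool.Agent.Results.MP_7bc610_gt.NullHomologousKnots

open Pool.Agent.H891R2.Jones Pool.Agent.K4H9.NJ Pool.Agent.K4H9.AL

/-- There is a sequence of knots in the thickened torus (diagrams `D n` of genus at most one) which are
null-homologous, have the Jones polynomial of the unknot, are not stably equivalent to the unknot or to any
classical knot, and are pairwise not stably equivalent. -/
theorem result : ∃ (P : ℕ → Type) (_ : ∀ n, DecidableEq (P n)) (D : ∀ n, Diagram (P n)),
    (∀ n, IsKnot (D n) ∧ OnTorus (D n) ∧ NullHomologous (D n) ∧ (D n).fPoly = 1 ∧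
      ¬ Equivalent (D n) unknot ∧ ¬ Classical (D n)) ∧
    ∀ n n', n ≠ n' → ¬ Equivalent (D n) (D n') := by
  refine ⟨_, fun n => inferInstance, fun n => W 1 (n + 1), fun n => ⟨W_knot _ _,
    W_torus _ _ one_pos n.succ_pos, W_num _ _, W_fPoly _ _, W_nontrivial _ _ one_pos n.succ_pos,
    W_nc _ _ one_pos n.succ_pos⟩, ?_⟩
  intro n n' hn h
  have := W_inj _ _ _ _ one_pos n.succ_pos one_pos n'.succ_pos h
  omega

end Pool.Agent.Results.MP_7bc610_gt.NullHomologousKnots
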